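import Pool.Agent.Helper97.TN.St

/-!
# Project TN (MP_6090f9_nt), module P1: primes of `F = k[x]/(P)`
-/

set_option autoImplicit false

namespace Pool.Agent.Helper93.TN

open Pool.Agent.Helper97.TN Pool.Agent.Helper95.TT Pool.Agent.Helper24.TF
open NumberField IsDedekindDomain Polynomial Filter Topology
open scoped Classical

noncomputable section

section main

variable {k L : Type} [Field k] [NumberField k] [Field L] [NumberField L] [Algebra k L]

/-- restriction of primes -/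
private def pi_P1 (k : Type) {L : Type} [Field k] [NumberField k] [Field L] [NumberField L]
    [Algebra k L] (w : Pr L) : Pr k := HeightOneSpectrum.under (𝓞 k) w

private theorem lies_P1 (w : Pr L) : w.asIdeal.LiesOver (pi_P1 k w).asIdeal := ⟨rfl⟩

private theorem mem_pi_P1 (w : Pr L) (x : 𝓞 k) :
    x ∈ (pi_P1 k w).asIdeal ↔ algebraMap (𝓞 k) (𝓞 L) x ∈ w.asIdeal := Iff.rfl

/-- local degree -/
private def dg_P1 (k : Type) {L : Type} [Field k] [NumberField k] [Field L] [NumberField L]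
    [Algebra k L] (w : Pr L) : ℕ := w.asIdeal.ramificationIdx (𝓞 k) * w.asIdeal.inertiaDeg (𝓞 k)

private theorem f_pos_P1 (w : Pr L) : 0 < w.asIdeal.inertiaDeg (𝓞 k) :=
  Ideal.inertiaDeg_pos _ _

private theorem e_pos_P1 (w : Pr L) : 0 < w.asIdeal.ramificationIdx (𝓞 k) :=
  Ideal.ramificationIdx_pos _ _

private theorem q_pow_P1 (w : Pr L) :
    q (pi_P1 k w) ^ (w.asIdeal.inertiaDeg (𝓞 k)) = q w := by
  have := lies_P1 (k := k) w
  exact Ideal.absNorm_pow_inertiaDeg (pi_P1 k w).asIdeal w.asIdeal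

private theorem fib_fin_P1 (v : Pr k) : {w : Pr L | pi_P1 k w = v}.Finite := by
  have h1 : Set.InjOn (fun w : Pr L => w.asIdeal) {w : Pr L | pi_P1 k w = v} := by
    intro w _ w' _ h
    exact HeightOneSpectrum.ext h
  refine Set.Finite.of_finite_image ?_ h1
  refine (IsDedekindDomain.primesOver_finite v.asIdeal (𝓞 L)).subset ?_
  rintro _ ⟨w, hw, rfl⟩
  refine ⟨w.isPrime, ?_⟩
  have h2 := lies_P1 (k := k) w
  rw [show pi_P1 k w = v from hw] at h2
  exact h2

private theorem fib_sum_P1 (v : Pr k) (S : Finset (Pr L))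
    (hS : ∀ w, w ∈ S ↔ pi_P1 k w = v) : ∑ w ∈ S, dg_P1 k w = Module.finrank k L := by
  have h1 := Ideal.sum_ramification_inertia_eq_finrank v.asIdeal (𝓞 L)
  rw [IsFractionRing.finrank_eq (𝓞 k) k (𝓞 L) L, ← h1]
  refine Finset.sum_bij (fun w hw => ⟨w.asIdeal, w.isPrime, ?_⟩) ?_ ?_ ?_ ?_
  · have h2 := lies_P1 (k := k) w
    rw [(hS w).1 hw] at h2
    exact h2
  · intro w hw
    exact Finset.mem_univ _
  · intro w hw w' hw' h
    exact HeightOneSpectrum.ext (congrArg Subtype.val h)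
  · rintro ⟨Q, hQp, hQl⟩ _
    have hQb : Q ≠ ⊥ := Ideal.ne_bot_of_mem_primesOver v.ne_bot ⟨hQp, hQl⟩
    refine ⟨⟨Q, hQp, hQb⟩, ?_, rfl⟩
    rw [hS]
    apply HeightOneSpectrum.ext
    exact hQl.over.symm
  · intro w hw
    rfl

private theorem fib_le_P1 (v : Pr k) (S : Finset (Pr L))
    (hS : ∀ w ∈ S, pi_P1 k w = v) : ∑ w ∈ S, dg_P1 k w ≤ Module.finrank k L := by
  have hf := fib_fin_P1 (L := L) v
  have h1 := fib_sum_P1 v hf.toFinset (fun w => by simp)
  rw [← h1]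
  refine Finset.sum_le_sum_of_subset fun w hw => ?_
  rw [Set.Finite.mem_toFinset]
  exact hS w hw

private theorem card_P1 (w : Pr L) : q w = Nat.card (𝓞 L ⧸ w.asIdeal) := rfl

private theorem q_ne_P1 (w : Pr L) : q w ≠ 0 := by
  unfold q
  rw [Ne, Ideal.absNorm_eq_zero_iff]
  exact w.ne_bot

/-- residue degree one gives a representative -/
private theorem rep_P1 (w : Pr L) (h : q w = q (pi_P1 k w)) (θ : 𝓞 L) :
    ∃ a : 𝓞 k, θ - algebraMap (𝓞 k) (𝓞 L) a ∈ w.asIdeal := by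
  have h1 := h.symm
  rw [card_P1, card_P1] at h1
  have := lies_P1 (k := k) w
  have : (pi_P1 k w).asIdeal.IsPrime := (pi_P1 k w).isPrime
  have : w.asIdeal.IsPrime := w.isPrime
  have : Finite (𝓞 L ⧸ w.asIdeal) := by
    refine Nat.finite_of_card_ne_zero ?_
    rw [← card_P1]
    exact q_ne_P1 w
  let g : (𝓞 k ⧸ (pi_P1 k w).asIdeal) →+* (𝓞 L ⧸ w.asIdeal) :=
    Ideal.quotientMap w.asIdeal (algebraMap (𝓞 k) (𝓞 L)) le_rfl
  have hg : Function.Injective g := Ideal.quotientMap_injective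
  have hb : Function.Bijective g := hg.bijective_of_nat_card_le (by rw [h1])
  obtain ⟨x, hx⟩ := hb.2 (Ideal.Quotient.mk w.asIdeal θ)
  obtain ⟨a, rfl⟩ := Ideal.Quotient.mk_surjective x
  refine ⟨a, ?_⟩
  rw [Ideal.quotientMap_mk] at hx
  rw [← Ideal.Quotient.eq]
  exact hx.symm

/-- conversely -/
private theorem deg_one_P1 (w : Pr L)
    (h : ∀ x : 𝓞 L, ∃ a : 𝓞 k, x - algebraMap (𝓞 k) (𝓞 L) a ∈ w.asIdeal) :
    q w = q (pi_P1 k w) := by
  rw [card_P1, card_P1]
  have := lies_P1 (k := k) w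
  let g : (𝓞 k ⧸ (pi_P1 k w).asIdeal) →+* (𝓞 L ⧸ w.asIdeal) :=
    Ideal.quotientMap w.asIdeal (algebraMap (𝓞 k) (𝓞 L)) le_rfl
  have hg : Function.Injective g := Ideal.quotientMap_injective
  have hs : Function.Surjective g := by
    intro y
    obtain ⟨x, rfl⟩ := Ideal.Quotient.mk_surjective y
    obtain ⟨a, ha⟩ := h x
    refine ⟨Ideal.Quotient.mk _ a, ?_⟩
    have h5 : g (Ideal.Quotient.mk (pi_P1 k w).asIdeal a) =
        Ideal.Quotient.mk w.asIdeal (algebraMap (𝓞 k) (𝓞 L) a) := rfl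
    rw [h5]
    rw [← Ideal.Quotient.eq] at ha
    exact ha.symm
  exact (Nat.card_congr (Equiv.ofBijective g ⟨hg, hs⟩)).symm

/-- common denominator -/
private theorem den_P1 (θ : 𝓞 L) (hgen : ∀ x : L, ∃ g : k[X], aeval (θ : L) g = x) :
    ∃ d : 𝓞 k, d ≠ 0 ∧ ∀ x : 𝓞 L, ∃ g : (𝓞 k)[X],
      aeval θ g = algebraMap (𝓞 k) (𝓞 L) d * x := by
  have h1 : ∀ x : 𝓞 L, ∃ d : 𝓞 k, d ≠ 0 ∧ ∃ g : (𝓞 k)[X],
      aeval θ g = algebraMap (𝓞 k) (𝓞 L) d * x := by
    intro x
    obtain ⟨g0, hg0⟩ := hgen (x : L)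
    obtain ⟨b, hb, hg⟩ := IsLocalization.integerNormalization_spec (nonZeroDivisors (𝓞 k)) g0
    refine ⟨b, nonZeroDivisors.ne_zero hb, IsLocalization.integerNormalization
      (nonZeroDivisors (𝓞 k)) g0, ?_⟩
    apply RingOfIntegers.ext
    have hg1 : Polynomial.map (algebraMap (𝓞 k) k)
        (IsLocalization.integerNormalization (nonZeroDivisors (𝓞 k)) g0) =
        C (algebraMap (𝓞 k) k b) * g0 := by
      rw [hg]
      ext n
      rw [coeff_C_mul]
      erw [coeff_smul]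
      exact Algebra.smul_def _ _
    have h2 := congrArg (aeval (θ : L)) hg1
    rw [aeval_map_algebraMap] at h2
    have h3 : aeval (θ : L) (IsLocalization.integerNormalization (nonZeroDivisors (𝓞 k)) g0) =
        algebraMap (𝓞 L) L (aeval θ
          (IsLocalization.integerNormalization (nonZeroDivisors (𝓞 k)) g0)) :=
      aeval_algebraMap_apply L θ _
    rw [h3] at h2
    have h4 : aeval (θ : L) (C (algebraMap (𝓞 k) k b) * g0) = algebraMap (𝓞 k) L b * (x : L) := by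
      rw [← hg0, map_mul, aeval_C, ← IsScalarTower.algebraMap_apply]
    rw [h4] at h2
    change algebraMap (𝓞 L) L _ = algebraMap (𝓞 L) L (algebraMap (𝓞 k) (𝓞 L) b * x)
    rw [h2, map_mul, ← IsScalarTower.algebraMap_apply]
  choose D hD G hG using h1
  obtain ⟨S, hS⟩ := (Module.Finite.fg_top : (⊤ : Submodule (𝓞 k) (𝓞 L)).FG)
  refine ⟨∏ x ∈ S, D x, Finset.prod_ne_zero_iff.mpr (fun x _ => hD x), ?_⟩
  intro x
  have hx : x ∈ Submodule.span (𝓞 k) (S : Set (𝓞 L)) := by rw [hS]; trivial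
  induction hx using Submodule.span_induction with
  | mem x hx =>
    have hx' : x ∈ S := hx
    refine ⟨C (∏ y ∈ S.erase x, D y) * G x, ?_⟩
    rw [map_mul, aeval_C, hG, ← Finset.mul_prod_erase S D hx', map_mul]
    ring
  | zero => exact ⟨0, by simp⟩
  | add x y _ _ hx hy =>
    obtain ⟨g, hg⟩ := hx
    obtain ⟨g', hg'⟩ := hy
    exact ⟨g + g', by rw [map_add, hg, hg', mul_add]⟩
  | smul a x _ hx =>
    obtain ⟨g, hg⟩ := hx
    refine ⟨C a * g, ?_⟩
    rw [map_mul, aeval_C, hg, Algebra.smul_def]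
    ring

section poly

variable {P : (𝓞 k)[X]} {θ : 𝓞 L} (hP : P.Monic)
  (hirr : Irreducible (P.map (algebraMap (𝓞 k) k))) (hθ : aeval θ P = 0)
include hP hirr hθ

private theorem dvd_P1 (g : (𝓞 k)[X]) (hg : aeval θ g = 0) : P ∣ g := by
  have h1 : aeval (θ : L) (P.map (algebraMap (𝓞 k) k)) = 0 := by
    rw [aeval_map_algebraMap]
    have : aeval (θ : L) P = algebraMap (𝓞 L) L (aeval θ P) := aeval_algebraMap_apply L θ _
    rw [this, hθ, map_zero]
  have h2 : aeval (θ : L) (g.map (algebraMap (𝓞 k) k)) = 0 := by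
    rw [aeval_map_algebraMap]
    have : aeval (θ : L) g = algebraMap (𝓞 L) L (aeval θ g) := aeval_algebraMap_apply L θ _
    rw [this, hg, map_zero]
  have h3 := minpoly.eq_of_irreducible_of_monic hirr h1 (hP.map _)
  have h4 := minpoly.dvd k (θ : L) h2
  rw [← h3] at h4
  exact (Polynomial.map_dvd_map (algebraMap (𝓞 k) k)
    (FaithfulSMul.algebraMap_injective (𝓞 k) k) hP).1 h4

/-- relations modulo `v` -/
private theorem rel_P1 (v : Pr k) (b : 𝓞 k) (hb : P.eval b ∈ v.asIdeal) (g g' : (𝓞 k)[X])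
    (hg : aeval θ g = aeval θ g') (h : g'.eval b ∈ v.asIdeal) : g.eval b ∈ v.asIdeal := by
  obtain ⟨u, hu⟩ := dvd_P1 hP hirr hθ (g - g') (by rw [map_sub, hg, sub_self])
  have h1 : (g - g').eval b = P.eval b * u.eval b := by rw [hu, eval_mul]
  rw [eval_sub] at h1
  have h2 : g.eval b = P.eval b * u.eval b + g'.eval b := by rw [← h1]; ring
  rw [h2]
  exact add_mem (Ideal.mul_mem_right _ _ hb) h

variable {d : 𝓞 k} (hd : ∀ x : 𝓞 L, ∃ g : (𝓞 k)[X],
      aeval θ g = algebraMap (𝓞 k) (𝓞 L) d * x)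
include hd

/-- the ideal of a root modulo `v` -/
private theorem ideal_P1 (v : Pr k) (hdv : d ∉ v.asIdeal) (b : 𝓞 k)
    (hb : P.eval b ∈ v.asIdeal) :
    ∃ w : Pr L, pi_P1 k w = v ∧ q w = q v ∧ θ - algebraMap (𝓞 k) (𝓞 L) b ∈ w.asIdeal := by
  have rel := rel_P1 hP hirr hθ v b hb
  let J : Ideal (𝓞 L) :=
    { carrier := {x | ∀ g : (𝓞 k)[X], aeval θ g = algebraMap (𝓞 k) (𝓞 L) d * x →
        g.eval b ∈ v.asIdeal}
      add_mem' := by
        intro x y hx hy g hg
        obtain ⟨gx, hgx⟩ := hd x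
        have h1 := hx gx hgx
        have h2 := hy (g - gx) (by rw [map_sub, hg, hgx]; ring)
        rw [eval_sub] at h2
        have h3 : g.eval b = (g.eval b - gx.eval b) + gx.eval b := by ring
        rw [h3]
        exact add_mem h2 h1
      zero_mem' := by
        intro g hg
        refine rel g 0 ?_ ?_
        · rw [hg, mul_zero, map_zero]
        · rw [eval_zero]; exact zero_mem _
      smul_mem' := by
        intro z x hx g hg
        obtain ⟨gx, hgx⟩ := hd x
        obtain ⟨gz, hgz⟩ := hd z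
        have h1 := hx gx hgx
        have h2 : (C d * g).eval b ∈ v.asIdeal := by
          refine rel (C d * g) (gz * gx) ?_ ?_
          · rw [map_mul, map_mul, aeval_C, hg, hgx, hgz, smul_eq_mul]
            ring
          · rw [eval_mul]
            exact Ideal.mul_mem_left _ _ h1
        rw [eval_mul, eval_C] at h2
        exact (v.isPrime.mem_or_mem h2).resolve_left hdv }
  have hJ : ∀ x : 𝓞 L, x ∈ J ↔ ∀ g : (𝓞 k)[X], aeval θ g = algebraMap (𝓞 k) (𝓞 L) d * x →
        g.eval b ∈ v.asIdeal := fun x => Iff.rfl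
  have hJ' : ∀ (x : 𝓞 L) (g : (𝓞 k)[X]), aeval θ g = algebraMap (𝓞 k) (𝓞 L) d * x →
      g.eval b ∈ v.asIdeal → x ∈ J := by
    intro x g hg h
    rw [hJ]
    intro g' hg'
    exact rel g' g (by rw [hg, hg']) h
  have hcomap : ∀ c : 𝓞 k, algebraMap (𝓞 k) (𝓞 L) c ∈ J ↔ c ∈ v.asIdeal := by
    intro c
    constructor
    · intro h
      have h1 := (hJ _).1 h (C (d * c)) (by rw [aeval_C, map_mul])
      rw [eval_C] at h1
      exact (v.isPrime.mem_or_mem h1).resolve_left hdv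
    · intro h
      refine hJ' _ (C (d * c)) (by rw [aeval_C, map_mul]) ?_
      rw [eval_C]
      exact Ideal.mul_mem_left _ _ h
  have hprime : J.IsPrime := by
    refine ⟨?_, ?_⟩
    · rw [Ideal.ne_top_iff_one]
      intro h
      have h1 := (hcomap 1).1 (by rw [map_one]; exact h)
      exact v.isPrime.ne_top ((Ideal.eq_top_iff_one _).2 h1)
    · intro x y hxy
      obtain ⟨gx, hgx⟩ := hd x
      obtain ⟨gy, hgy⟩ := hd y
      obtain ⟨gxy, hgxy⟩ := hd (x * y)
      have h1 := (hJ _).1 hxy gxy hgxy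
      have h2 : (gx * gy).eval b ∈ v.asIdeal := by
        refine rel (gx * gy) (C d * gxy) ?_ ?_
        · rw [map_mul, map_mul, aeval_C, hgx, hgy, hgxy]
          ring
        · rw [eval_mul]
          exact Ideal.mul_mem_left _ _ h1
      rw [eval_mul] at h2
      rcases v.isPrime.mem_or_mem h2 with h3 | h3
      · exact Or.inl (hJ' x gx hgx h3)
      · exact Or.inr (hJ' y gy hgy h3)
  have hne : J ≠ ⊥ := by
    intro h0
    apply v.ne_bot
    rw [eq_bot_iff]
    intro x hx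
    have h1 := (hcomap x).2 hx
    rw [h0, Ideal.mem_bot] at h1
    rw [Ideal.mem_bot]
    exact (FaithfulSMul.algebraMap_injective (𝓞 k) (𝓞 L)) (by rw [h1, map_zero])
  let w : Pr L := ⟨J, hprime, hne⟩
  have hpi : pi_P1 k w = v := by
    apply HeightOneSpectrum.ext
    ext x
    exact hcomap x
  have hθb : θ - algebraMap (𝓞 k) (𝓞 L) b ∈ J := by
    refine hJ' _ (C d * (X - C b)) ?_ ?_
    · rw [map_mul, aeval_C, map_sub, aeval_X, aeval_C]
    · rw [eval_mul, eval_sub, eval_X, eval_C, eval_C, sub_self, mul_zero]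
      exact zero_mem _
  refine ⟨w, hpi, ?_, hθb⟩
  have h1 : q w = q (pi_P1 k w) := by
    apply deg_one_P1
    intro x
    obtain ⟨g, hg⟩ := hd x
    -- an inverse of `d` modulo `v`
    have hmax : v.asIdeal.IsMaximal := v.isMaximal
    obtain ⟨c, hc⟩ : ∃ c : 𝓞 k, c * d - 1 ∈ v.asIdeal := by
      obtain ⟨y, i, hi, h⟩ := Ideal.IsMaximal.exists_inv hmax hdv
      refine ⟨y, ?_⟩
      have : y * d - 1 = -i := by rw [← h]; ring
      rw [this]
      exact neg_mem hi
    refine ⟨c * g.eval b, ?_⟩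
    change x - algebraMap (𝓞 k) (𝓞 L) (c * g.eval b) ∈ J
    refine hJ' _ (g - C (d * (c * g.eval b))) ?_ ?_
    · rw [map_sub, aeval_C, hg, map_mul]
      ring
    · rw [eval_sub, eval_C]
      have : g.eval b - d * (c * g.eval b) = -((c * d - 1) * g.eval b) := by ring
      rw [this]
      exact neg_mem (Ideal.mul_mem_right _ _ hc)
  rw [h1, hpi]

/-- the number of primes of degree one above `v` -/
private theorem count_P1 (v : Pr k) (hdv : d ∉ v.asIdeal) :
    ({w : Pr L | pi_P1 k w = v ∧ q w = q v}.ncard : ℝ) = nr P v := by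
  have hex : ∀ w : {w : Pr L | pi_P1 k w = v ∧ q w = q v},
      ∃ b : 𝓞 k, θ - algebraMap (𝓞 k) (𝓞 L) b ∈ w.1.asIdeal := by
    rintro ⟨w, hw1, hw2⟩
    exact rep_P1 w (by rw [hw1, hw2]) θ
  choose B hB using hex
  have hmem : ∀ w : {w : Pr L | pi_P1 k w = v ∧ q w = q v}, ∀ x : 𝓞 k,
      algebraMap (𝓞 k) (𝓞 L) x ∈ w.1.asIdeal ↔ x ∈ v.asIdeal := by
    rintro ⟨w, hw1, hw2⟩ x
    rw [← mem_pi_P1, hw1]
  -- reduction of a polynomial
  have hred : ∀ (w : Pr L) (b : 𝓞 k), θ - algebraMap (𝓞 k) (𝓞 L) b ∈ w.asIdeal →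
      ∀ g : (𝓞 k)[X], aeval θ g - algebraMap (𝓞 k) (𝓞 L) (g.eval b) ∈ w.asIdeal := by
    intro w b hb g
    have h1 : (θ - algebraMap (𝓞 k) (𝓞 L) b) ∣
        aeval θ g - algebraMap (𝓞 k) (𝓞 L) (g.eval b) := by
      have h2 : aeval θ g = (g.map (algebraMap (𝓞 k) (𝓞 L))).eval θ := by
        rw [eval_map_algebraMap]
      have h3 : algebraMap (𝓞 k) (𝓞 L) (g.eval b) =
          (g.map (algebraMap (𝓞 k) (𝓞 L))).eval (algebraMap (𝓞 k) (𝓞 L) b) := by
        rw [eval_map_algebraMap, aeval_algebraMap_apply]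
        simp
      rw [h2, h3]
      exact sub_dvd_eval_sub _ _ _
    exact Ideal.mem_of_dvd _ h1 hb
  have hroot : ∀ w : {w : Pr L | pi_P1 k w = v ∧ q w = q v},
      (P.map (Ideal.Quotient.mk v.asIdeal)).eval (Ideal.Quotient.mk v.asIdeal (B w)) = 0 := by
    intro w
    rw [eval_map, eval₂_hom, Ideal.Quotient.eq_zero_iff_mem, ← hmem w]
    have h1 := hred w.1 (B w) (hB w) P
    rw [hθ, zero_sub] at h1
    exact neg_mem_iff.1 h1
  let φ : {w : Pr L | pi_P1 k w = v ∧ q w = q v} →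
      {x : Kv v // (P.map (Ideal.Quotient.mk v.asIdeal)).eval x = 0} :=
    fun w => ⟨Ideal.Quotient.mk v.asIdeal (B w), hroot w⟩
  have hinj : Function.Injective φ := by
    intro w w' h
    have h1 : Ideal.Quotient.mk v.asIdeal (B w) = Ideal.Quotient.mk v.asIdeal (B w') :=
      congrArg Subtype.val h
    rw [Ideal.Quotient.eq] at h1
    have h2 : θ - algebraMap (𝓞 k) (𝓞 L) (B w) ∈ w'.1.asIdeal := by
      have h3 : θ - algebraMap (𝓞 k) (𝓞 L) (B w) =
          (θ - algebraMap (𝓞 k) (𝓞 L) (B w')) - algebraMap (𝓞 k) (𝓞 L) (B w - B w') := by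
        rw [map_sub]; ring
      rw [h3]
      exact sub_mem (hB w') ((hmem w' _).2 h1)
    have key : ∀ u : {w : Pr L | pi_P1 k w = v ∧ q w = q v},
        θ - algebraMap (𝓞 k) (𝓞 L) (B w) ∈ u.1.asIdeal → ∀ (x : 𝓞 L) (g : (𝓞 k)[X]),
        aeval θ g = algebraMap (𝓞 k) (𝓞 L) d * x → (x ∈ u.1.asIdeal ↔ g.eval (B w) ∈ v.asIdeal) := by
      intro u hu x g hg
      have h4 := hred u.1 (B w) hu g
      rw [← hmem u]
      constructor
      · intro hx
        have h5 : aeval θ g ∈ u.1.asIdeal := by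
          rw [hg]; exact Ideal.mul_mem_left _ _ hx
        have h6 : algebraMap (𝓞 k) (𝓞 L) (g.eval (B w)) =
            aeval θ g - (aeval θ g - algebraMap (𝓞 k) (𝓞 L) (g.eval (B w))) := by ring
        rw [h6]
        exact sub_mem h5 h4
      · intro hx
        have h5 : algebraMap (𝓞 k) (𝓞 L) d * x ∈ u.1.asIdeal := by
          rw [← hg]
          have h6 : aeval θ g = (aeval θ g - algebraMap (𝓞 k) (𝓞 L) (g.eval (B w))) +
              algebraMap (𝓞 k) (𝓞 L) (g.eval (B w)) := by ring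
          rw [h6]
          exact add_mem h4 hx
        exact (u.1.isPrime.mem_or_mem h5).resolve_left (fun h7 => hdv ((hmem u _).1 h7))
    apply Subtype.ext
    apply HeightOneSpectrum.ext
    ext x
    obtain ⟨g, hg⟩ := hd x
    rw [key w (hB w) x g hg, key w' h2 x g hg]
  have hsurj : Function.Surjective φ := by
    rintro ⟨a, ha⟩
    obtain ⟨b, rfl⟩ := Ideal.Quotient.mk_surjective a
    rw [eval_map, eval₂_hom, Ideal.Quotient.eq_zero_iff_mem] at ha
    obtain ⟨w, hw1, hw2, hw3⟩ := ideal_P1 hP hirr hθ hd v hdv b ha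
    refine ⟨⟨w, hw1, hw2⟩, ?_⟩
    apply Subtype.ext
    change Ideal.Quotient.mk v.asIdeal (B ⟨w, hw1, hw2⟩) = Ideal.Quotient.mk v.asIdeal b
    rw [Ideal.Quotient.eq, ← hmem ⟨w, hw1, hw2⟩]
    have h1 := hB ⟨w, hw1, hw2⟩
    have h2 : algebraMap (𝓞 k) (𝓞 L) (B ⟨w, hw1, hw2⟩ - b) =
        (θ - algebraMap (𝓞 k) (𝓞 L) b) - (θ - algebraMap (𝓞 k) (𝓞 L) (B ⟨w, hw1, hw2⟩)) := by
      rw [map_sub]; ring
    rw [h2]
    exact sub_mem hw3 h1
  unfold nr
  rw [← Nat.card_congr (Equiv.ofBijective φ ⟨hinj, hsurj⟩), Nat.card_coe_set_eq]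

end poly

end main

theorem hP1 : StP1 := by
  intro k _ _ P hP hirr
  have hfact : Fact (Irreducible (P.map (algebraMap (𝓞 k) k))) := ⟨hirr⟩
  let F := AdjoinRoot (P.map (algebraMap (𝓞 k) k))
  have hne : P.map (algebraMap (𝓞 k) k) ≠ 0 := hirr.ne_zero
  have i1 : Module.Finite k F := (AdjoinRoot.powerBasis hne).finite
  have i2 : CharZero F := charZero_of_injective_algebraMap (algebraMap k F).injective
  have i3 : Module.Finite ℚ F := Module.Finite.trans k F
  have i4 : NumberField F := { }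
  have hroot : aeval (AdjoinRoot.root (P.map (algebraMap (𝓞 k) k)) : F) P = 0 := by
    have h := AdjoinRoot.eval₂_root (P.map (algebraMap (𝓞 k) k))
    rw [eval₂_map] at h
    exact h
  have hint0 : IsIntegral (𝓞 k) (AdjoinRoot.root (P.map (algebraMap (𝓞 k) k)) : F) :=
    ⟨P, hP, hroot⟩
  have hint : IsIntegral ℤ (AdjoinRoot.root (P.map (algebraMap (𝓞 k) k)) : F) :=
    isIntegral_trans _ hint0
  let θ : 𝓞 F := ⟨AdjoinRoot.root (P.map (algebraMap (𝓞 k) k)), hint⟩
  have hθ : aeval θ P = 0 := by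
    apply RingOfIntegers.ext
    have : aeval (θ : F) P = algebraMap (𝓞 F) F (aeval θ P) := aeval_algebraMap_apply F θ _
    change algebraMap (𝓞 F) F (aeval θ P) = algebraMap (𝓞 F) F 0
    rw [← this, map_zero]
    exact hroot
  have hgen : ∀ x : F, ∃ g : k[X], aeval (θ : F) g = x := by
    intro x
    obtain ⟨g, hg⟩ := AdjoinRoot.mk_surjective x
    exact ⟨g, by rw [← hg]; exact AdjoinRoot.aeval_eq g⟩
  obtain ⟨d, hd0, hd⟩ := den_P1 θ hgen
  have hfd : ∀ w : Pr F, w.asIdeal.inertiaDeg (𝓞 k) ≤ dg_P1 k w := fun w =>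
    Nat.le_mul_of_pos_left _ (e_pos_P1 w)
  refine ⟨F, inferInstance, i4, pi_P1 k, Module.finrank k F, {v | d ∈ v.asIdeal}, ?_, ?_, ?_, ?_⟩
  · have h1 : (Ideal.span {d} : Ideal (𝓞 k)) ≠ 0 := by
      rw [Ne, Ideal.zero_eq_bot, Ideal.span_singleton_eq_bot]
      exact hd0
    refine (Ideal.finite_factors h1).subset ?_
    intro v hv
    rw [Set.mem_ofPred_eq, Ideal.dvd_span_singleton]
    exact hv
  · intro w
    refine ⟨w.asIdeal.inertiaDeg (𝓞 k), f_pos_P1 w, ?_, (q_pow_P1 w).symm⟩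
    have h1 := fib_le_P1 (pi_P1 k w) {w} (by
      intro x hx
      rw [Finset.mem_singleton] at hx
      rw [hx])
    rw [Finset.sum_singleton] at h1
    exact (hfd w).trans h1
  · intro v
    have hf := fib_fin_P1 (L := F) v
    refine ⟨hf, ?_⟩
    rw [Set.ncard_eq_toFinset_card _ hf, Finset.card_eq_sum_ones]
    refine le_trans (Finset.sum_le_sum fun w _ => ?_)
      (fib_sum_P1 v hf.toFinset (fun w => by simp)).le
    exact (f_pos_P1 w).trans_le (hfd w)
  · intro v hv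
    exact count_P1 hP hirr hθ hd v hv

end

end Pool.Agent.Helper93.TN
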